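import Pool.Agent.H13.EDM.Targets

/-!
Board edm_modules, row MDE: mixed degrees of two systems.
-/

open MvPolynomial
open Pool.Agent.H8.TD (lc dg Wsp)
open Pool.Agent.H13.EDM

namespace Pool.Agent.H80.EDM

theorem pf_MDE (hMDM : T_MDM) : T_MDE := by
  intro N a i k K _ _ _ _ A B htr hfg hi
  obtain ⟨σ, hσ⟩ := (hMDM N a k K (fun l : Fin N => if (l : ℕ) < i then A else B) htr hfg).2
  refine ⟨fun r => σ ⟨r, by have := r.isLt; omega⟩, fun r => σ ⟨i + r, by have := r.isLt; omega⟩,
    ?_⟩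
  rw [← hσ]
  refine le_of_eq ?_
  congr 1
  ext z
  constructor
  · rintro ⟨l, hl⟩
    beta_reduce at hl
    by_cases h : (l : ℕ) < i
    · rw [if_pos h] at hl
      exact Or.inl ⟨⟨l, h⟩, hl⟩
    · rw [if_neg h] at hl
      have hlt := l.isLt
      refine Or.inr ⟨⟨(l : ℕ) - i, by omega⟩, ?_⟩
      beta_reduce
      have e : (⟨i + ((⟨(l : ℕ) - i, by omega⟩ : Fin (N - i)) : ℕ), by
          simp only
          omega⟩ : Fin N) = l := by
        apply Fin.ext
        simp only
        omega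
      rw [e]
      exact hl
  · rintro (⟨r, hr⟩ | ⟨r, hr⟩)
    · refine ⟨⟨r, by have := r.isLt; omega⟩, ?_⟩
      beta_reduce
      rw [if_pos (show ((⟨r, by have := r.isLt; omega⟩ : Fin N) : ℕ) < i from r.isLt)]
      exact hr
    · refine ⟨⟨i + r, by have := r.isLt; omega⟩, ?_⟩
      beta_reduce
      rw [if_neg (by simp only; omega)]
      exact hr

end Pool.Agent.H80.EDM
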