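import Pool.Agent.H13.EDM.Targets

/-!
Board edm_modules, row STP: exchange of one function.
-/

open MvPolynomial
open Pool.Agent.H8.TD (lc dg Wsp)
open Pool.Agent.H13.EDM

namespace Pool.Agent.H80.EDM

theorem stp_range {K : Type} {p e : ℕ} (F : Fin (p + 1 + e) → K) (i0 : Fin (p + 1)) :
    Set.range F = (Set.range fun b => F (Fin.castAdd e (i0.succAbove b))) ∪
      insert (F (Fin.castAdd e i0)) (Set.range fun l => F (Fin.natAdd (p + 1) l)) := by
  ext z
  constructor
  · rintro ⟨l, rfl⟩
    refine Fin.addCases (fun b => ?_) (fun b => ?_) l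
    · rcases Fin.eq_self_or_eq_succAbove i0 b with h | ⟨c, h⟩
      · right
        left
        rw [h]
      · left
        exact ⟨c, by rw [h]⟩
    · right
      right
      exact ⟨b, rfl⟩
  · rintro (⟨b, rfl⟩ | h | ⟨l, rfl⟩)
    · exact ⟨_, rfl⟩
    · exact ⟨_, h.symm⟩
    · exact ⟨_, rfl⟩

theorem pf_STP (hADS : T_ADS) (hTRD : T_TRD) (hIFD : T_IFD) (hFGU : T_FGU) (hSIU : T_SIU) :
    T_STP := by
  intro n a j P Q k K _ _ _ _ B y i u htr hfg hij hjn h1 h2 h3
  obtain ⟨e, rfl⟩ := Nat.exists_eq_add_of_le hjn
  obtain ⟨p, rfl⟩ : ∃ p, j = p + 1 := ⟨j - 1, by omega⟩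
  by_cases h0 : dg k (Set.range y) = 0
  · rw [h0, zero_mul]
    exact Nat.zero_le _
  have hind : AlgebraicIndependent k y :=
    (hIFD _ k K y htr hfg).mp (Nat.one_le_iff_ne_zero.mpr h0)
  obtain ⟨i0, rfl⟩ : ∃ i0 : Fin (p + 1), i = Fin.castAdd e i0 := ⟨⟨i, hij⟩, Fin.ext rfl⟩
  have hx : AlgebraicIndependent k fun b => y (Fin.castAdd e (i0.succAbove b)) :=
    hind.comp (fun b => Fin.castAdd e (i0.succAbove b))
      ((Fin.castAdd_injective _ _).comp Fin.succAbove_right_injective)
  have hne : ∀ b : Fin p, Fin.castAdd e (i0.succAbove b) ≠ Fin.castAdd e i0 := fun b h =>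
    Fin.succAbove_ne i0 b (Fin.castAdd_injective _ _ h)
  have hne2 : ∀ l : Fin e, Fin.natAdd (p + 1) l ≠ Fin.castAdd e i0 := fun l h => by
    have := congrArg Fin.val h
    simp only [Fin.val_natAdd, Fin.val_castAdd] at this
    have := i0.isLt
    omega
  have hu1 : ∀ w : K, (Set.range (Function.update y (Fin.castAdd e i0) w)) =
      (Set.range fun b => y (Fin.castAdd e (i0.succAbove b))) ∪
        insert w (Set.range fun l => y (Fin.natAdd (p + 1) l)) := by
    intro w
    rw [stp_range _ i0, Function.update_self]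
    congr 1
    · congr 1
      funext b
      rw [Function.update_of_ne (hne b)]
    · congr 2
      funext l
      rw [Function.update_of_ne (hne2 l)]
  have htr' : Algebra.trdeg (IntermediateField.adjoin k
      (Set.range fun b => y (Fin.castAdd e (i0.succAbove b)))) K = (e + 1 : ℕ) := by
    refine hTRD p (e + 1) k K _ hx ?_
    rw [htr]
    congr 1
    omega
  have hfg' := hFGU k K (Set.range fun b => y (Fin.castAdd e (i0.succAbove b))) hfg
  have : CharZero (IntermediateField.adjoin k
      (Set.range fun b => y (Fin.castAdd e (i0.succAbove b)))) :=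
    charZero_of_injective_algebraMap
      (algebraMap k (IntermediateField.adjoin k
        (Set.range fun b => y (Fin.castAdd e (i0.succAbove b))))).injective
  have main := hSIU e a P Q (dg k (Set.range (Function.update y (Fin.castAdd e i0) (lc u B)))) k
    (IntermediateField.adjoin k (Set.range fun b => y (Fin.castAdd e (i0.succAbove b)))) K B
    (y (Fin.castAdd e i0)) (fun l => y (Fin.natAdd (p + 1) l)) htr' hfg' ?_ ?_ ?_
  · rw [hADS, ← stp_range y i0] at main
    have e1 : p + 1 + e - (p + 1) + 1 = e + 1 := by omega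
    rw [e1]
    exact main
  · obtain ⟨t, ht⟩ := h2
    refine ⟨Fin.cons u (fun l => t (Fin.natAdd (p + 1) l)), ?_⟩
    rw [hADS]
    refine ht.trans (le_of_eq ?_)
    congr 1
    rw [stp_range _ i0]
    congr 1
    · congr 1
      funext b
      rw [if_pos (by rw [Fin.val_castAdd]; exact Fin.isLt _), Function.update_of_ne (hne b)]
    · rw [if_pos (by rw [Fin.val_castAdd]; exact Fin.isLt _), Function.update_self]
      ext z
      constructor
      · rintro (h | ⟨l, rfl⟩)
        · exact ⟨0, by simp [h]⟩
        · refine ⟨l.succ, ?_⟩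
          beta_reduce
          rw [if_neg (by rw [Fin.val_natAdd]; omega), Fin.cons_succ]
      · rintro ⟨l, rfl⟩
        refine Fin.cases ?_ (fun l => ?_) l
        · left
          simp
        · right
          refine ⟨l, ?_⟩
          beta_reduce
          rw [if_neg (by rw [Fin.val_natAdd]; omega), Fin.cons_succ]
  · intro t
    rw [hADS]
    refine le_trans (le_of_eq ?_) (h3 (Fin.addCases (fun _ => 0) t))
    congr 1
    rw [stp_range _ i0]
    congr 1
    · congr 1
      funext b
      rw [if_pos (by rw [Fin.val_castAdd]; exact Fin.isLt _)]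
    · rw [if_pos (by rw [Fin.val_castAdd]; exact Fin.isLt _)]
      congr 2
      funext l
      rw [if_neg (by rw [Fin.val_natAdd]; omega), Fin.addCases_right]
  · intro s
    rw [hADS, ← hu1]
    exact h1 s

end Pool.Agent.H80.EDM
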