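import Pool.Agent.H13.EDM.Targets

/-!
Board edm_modules, row MDI: mixed degrees with one function of a third system.
-/

open MvPolynomial
open Pool.Agent.H8.TD (lc dg Wsp)
open Pool.Agent.H13.EDM

namespace Pool.Agent.H80.EDM

theorem pf_MDI (hMDM : T_MDM) : T_MDI := by
  intro e a j k K _ _ _ _ A B G u s t htr hfg hj
  have main := (hMDM (e + 1) a k K
    (fun i : Fin (e + 1) => if (i : ℕ) < j then A else if (i : ℕ) = j then G else B) htr hfg).1
    (fun i => if h : (i : ℕ) < j then s ⟨i, h⟩ else if h2 : (i : ℕ) = j then u else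
      t ⟨(i : ℕ) - j - 1, by have := i.isLt; omega⟩)
  refine le_trans (le_of_eq ?_) main
  congr 1
  ext z
  constructor
  · rintro (h | ⟨r, h⟩ | ⟨r, h⟩)
    · refine ⟨⟨j, by omega⟩, ?_⟩
      have h1 : ¬ ((⟨j, by omega⟩ : Fin (e + 1)) : ℕ) < j := lt_irrefl _
      beta_reduce
      rw [dif_neg h1, dif_pos rfl, if_neg h1, if_pos rfl]
      exact h.symm
    · have hr := r.isLt
      refine ⟨⟨r, by omega⟩, ?_⟩
      have h1 : ((⟨r, by omega⟩ : Fin (e + 1)) : ℕ) < j := hr
      beta_reduce
      rw [dif_pos h1, if_pos h1]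
      exact h
    · have hr := r.isLt
      refine ⟨⟨j + 1 + r, by omega⟩, ?_⟩
      have h1 : ¬ ((⟨j + 1 + r, by omega⟩ : Fin (e + 1)) : ℕ) < j := by
        simp only
        omega
      have h2 : ¬ ((⟨j + 1 + r, by omega⟩ : Fin (e + 1)) : ℕ) = j := by
        simp only
        omega
      beta_reduce
      rw [dif_neg h1, dif_neg h2, if_neg h1, if_neg h2]
      have h3 : (⟨((⟨j + 1 + r, by omega⟩ : Fin (e + 1)) : ℕ) - j - 1, by
          simp only
          omega⟩ : Fin (e - j)) = r := by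
        apply Fin.ext
        simp only
        omega
      rw [h3]
      exact h
  · rintro ⟨i, hi⟩
    beta_reduce at hi
    by_cases h1 : (i : ℕ) < j
    · rw [dif_pos h1, if_pos h1] at hi
      exact Or.inr (Or.inl ⟨_, hi⟩)
    · by_cases h2 : (i : ℕ) = j
      · rw [dif_neg h1, dif_pos h2, if_neg h1, if_pos h2] at hi
        exact Or.inl hi.symm
      · rw [dif_neg h1, dif_neg h2, if_neg h1, if_neg h2] at hi
        exact Or.inr (Or.inr ⟨_, hi⟩)

end Pool.Agent.H80.EDM
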